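import Pool.Agent.N198.TE.Num

/-!
Numerical conditions on the orders of the entries: only the sets of primes with a member congruent to 1
modulo 4 count.
-/

set_option linter.unusedSectionVars false

namespace Pool.Agent.N198.NF

open Finset Pool.Agent.N993 Pool.Agent.H916R2 Pool.Agent.N992 Pool.Agent.LB Pool.Agent.N198.TE

/-- The class of every set with at least four elements and an element congruent to 1 modulo 4 can be
avoided by `C` points of order `d`. -/
def Fine (C d : ℕ) : Prop := ∀ T : Finset ℕ, 4 ≤ T.card → (∃ p ∈ T, p % 4 = 1) →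
  C * prb T (opf d) (lev2 d) < 2 * hh (opf d)

/-- The numerical condition on the sets of at least `k` odd prime factors, one of which is congruent to
1 modulo 4. -/
def CondK (k D m : ℕ) : Prop := ∀ P : Finset ℕ, (∀ p ∈ P, p.Prime ∧ p ≠ 2 ∧ p ∣ m) →
  k ≤ P.card → (∃ p ∈ P, p % 4 = 1) → D * (P.card - k + 3).factorial < 6 * ∏ p ∈ P, (p - 1) / 2

lemma opf_mem {m d : ℕ} (hd : d ∣ m) : ∀ p ∈ opf d, p.Prime ∧ p ≠ 2 ∧ p ∣ m := by
  intro p hp
  unfold opf at hp
  rw [mem_erase] at hp
  exact ⟨Nat.prime_of_mem_primeFactors hp.2, hp.1, (Nat.dvd_of_mem_primeFactors hp.2).trans hd⟩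

theorem fine_all {m r d : ℕ} (h : CondK 3 r m) (hd : d ∣ m) : Fine r d := by
  intro T h4 hT1
  have hP := opf_mem hd
  generalize lev2 d = j
  generalize opf d = P at hP ⊢
  have h4P : 4 ∉ P := fun h4 => absurd (hP 4 h4).1 (by norm_num)
  have c1 : 3 ≤ P.card → (∃ p ∈ P, p % 4 = 1) → r * P.card.factorial < 6 * hh P := by
    intro h3 h31
    have h5 := h P hP h3 h31
    rw [← hh_eq hP] at h5
    have e : P.card - 3 + 3 = P.card := by omega
    rwa [e] at h5
  have hH : 0 < hh P := by
    rw [hh_eq hP]
    exact prod_pos fun p hp => (half_pos' hP hp).1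
  set H := hh P with hHd
  have hsz := sz_le T
  have hin : T.erase 4 ⊆ P → ∃ p ∈ P, p % 4 = 1 := by
    intro hS
    obtain ⟨p, hp, hp1⟩ := hT1
    exact ⟨p, hS (mem_erase.mpr ⟨by rintro rfl; omega, hp⟩), hp1⟩
  by_cases hT4 : 4 ∈ T
  · have hTP : ¬ T ⊆ P := fun h1 => h4P (h1 hT4)
    have key : T.erase 4 ⊆ P → r * (sz T - 1).ascFactorial (P.card + 1 - T.card) < H ∧
        r * (sz T).ascFactorial (P.card + 1 - T.card) < 2 * H := by
      intro hS
      have hSc := card_le_card hS
      rw [card_erase_of_mem hT4] at hSc
      have e1 := asc_fac (t := T.card - 1) (p := P.card) (by omega) hSc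
      have e2 : P.card - (T.card - 1) = P.card + 1 - T.card := by omega
      have e3 : T.card - 1 - 1 = T.card - 2 := by omega
      rw [e2, e3] at e1
      have e4 := asc_fac (t := T.card) (p := P.card + 1) (by omega) (by omega)
      rw [Nat.add_sub_cancel] at e4
      have m1 := asc_mono (show sz T - 1 ≤ T.card - 1 by omega) (P.card + 1 - T.card)
      have m2 := asc_mono hsz (P.card + 1 - T.card)
      set G := (T.card - 1).ascFactorial (P.card + 1 - T.card) with hG
      set F := T.card.ascFactorial (P.card + 1 - T.card) with hF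
      have e5 : P.card.factorial = P.card * (P.card - 1).factorial := by
        obtain ⟨n, hn⟩ : ∃ n, P.card = n + 1 := ⟨P.card - 1, by omega⟩
        rw [hn, Nat.factorial_succ, Nat.add_sub_cancel]
      have h5 := c1 (by omega) (hin hS)
      constructor
      · refine lt_of_le_of_lt (Nat.mul_le_mul_left r m1) ?_
        have h6 : 2 ≤ (T.card - 2).factorial := by
          have : Nat.factorial 2 ≤ (T.card - 2).factorial := Nat.factorial_le (by omega)
          simpa [Nat.factorial] using this
        have h7 : 6 ≤ P.card * (T.card - 2).factorial := by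
          calc 6 = 3 * 2 := rfl
            _ ≤ _ := Nat.mul_le_mul (by omega) h6
        have h8 : 6 * (r * G) < 6 * H := by
          refine lt_of_le_of_lt ?_ h5
          rw [e5, ← e1]
          calc 6 * (r * G) ≤ (P.card * (T.card - 2).factorial) * (r * G) :=
                Nat.mul_le_mul_right _ h7
            _ = _ := by ring
        omega
      · have h6 : 6 ≤ (T.card - 1).factorial := by
          have : Nat.factorial 3 ≤ (T.card - 1).factorial := Nat.factorial_le (by omega)
          simpa [Nat.factorial] using this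
        have h8 : 6 * (r * F) < 6 * H := by
          refine lt_of_le_of_lt ?_ h5
          rw [← e4]
          calc 6 * (r * F) ≤ (T.card - 1).factorial * (r * F) := Nat.mul_le_mul_right _ h6
            _ = _ := by ring
        have h9 := Nat.mul_le_mul_left r m2
        omega
    unfold prb
    rw [if_neg hTP, if_pos hT4]
    split_ifs with a1 a2 a3 a4 a5
    · omega
    · omega
    · have h5 := (key a4).1
      have h6 : r * (2 * (sz T - 1).ascFactorial (P.card + 1 - T.card)) =
        2 * (r * (sz T - 1).ascFactorial (P.card + 1 - T.card)) := by ring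
      omega
    · omega
    · exact (key a5).2
    · omega
  · have hTe : T.erase 4 = T := erase_eq_of_notMem hT4
    rw [hTe] at hin
    unfold prb
    rw [if_neg hT4, hTe]
    by_cases hTP : T ⊆ P
    · have ht := card_le_card hTP
      have e4 := asc_fac (t := T.card) (p := P.card + 1) (by omega) (by omega)
      rw [Nat.add_sub_cancel] at e4
      have m2 := asc_mono hsz (P.card + 1 - T.card)
      have m3 := asc_mono hsz (P.card - T.card)
      have e6 : P.card + 1 - T.card = (P.card - T.card) + 1 := by omega
      have m4 : 2 * T.card.ascFactorial (P.card - T.card) ≤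
          T.card.ascFactorial (P.card + 1 - T.card) := by
        rw [e6, Nat.ascFactorial_succ]
        exact Nat.mul_le_mul_right _ (by omega)
      set F := T.card.ascFactorial (P.card + 1 - T.card) with hF
      have key : r * F < H := by
        have h5 := c1 (by omega) (hin hTP)
        have h6 : 6 ≤ (T.card - 1).factorial := by
          have : Nat.factorial 3 ≤ (T.card - 1).factorial := Nat.factorial_le (by omega)
          simpa [Nat.factorial] using this
        have h8 : 6 * (r * F) < 6 * H := by
          refine lt_of_le_of_lt ?_ h5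
          rw [← e4]
          calc 6 * (r * F) ≤ (T.card - 1).factorial * (r * F) := Nat.mul_le_mul_right _ h6
            _ = _ := by ring
        omega
      have n2 := Nat.mul_le_mul_left r m2
      have n3 := Nat.mul_le_mul_left r m3
      have n4 := Nat.mul_le_mul_left r m4
      have n5 : r * (2 * T.card.ascFactorial (P.card - T.card)) =
        2 * (r * T.card.ascFactorial (P.card - T.card)) := by ring
      have n6 : r * (2 * (sz T).ascFactorial (P.card - T.card)) =
        2 * (r * (sz T).ascFactorial (P.card - T.card)) := by ring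
      have n7 : r * (4 * (sz T).ascFactorial (P.card - T.card)) =
        4 * (r * (sz T).ascFactorial (P.card - T.card)) := by ring
      have n8 : r * (2 * (sz T).ascFactorial (P.card + 1 - T.card)) =
        2 * (r * (sz T).ascFactorial (P.card + 1 - T.card)) := by ring
      rw [if_pos hTP, if_pos hTP, if_pos hTP, if_pos hTP]
      split_ifs
      · omega
      · omega
      · omega
      · omega
    · rw [if_neg hTP, if_neg hTP, if_neg hTP, if_neg hTP]
      split_ifs <;> omega

/-- orders not divisible by 4 -/
theorem fine_low {m r d : ℕ} (h : CondK 4 r m) (hd : d ∣ m) {C : ℕ}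
    (hj : (lev2 d = 0 ∧ C ≤ r) ∨ (lev2 d = 1 ∧ 2 * C ≤ r)) : Fine C d := by
  intro T h4 hT1
  have hP := opf_mem hd
  generalize lev2 d = j at hj ⊢
  generalize opf d = P at hP ⊢
  have hH : 0 < hh P := by
    rw [hh_eq hP]
    exact prod_pos fun p hp => (half_pos' hP hp).1
  have hsz := sz_le T
  by_cases hTP : T ⊆ P
  · have ht := card_le_card hTP
    have hin : ∃ p ∈ P, p % 4 = 1 := by
      obtain ⟨p, hp, hp1⟩ := hT1
      exact ⟨p, hTP hp, hp1⟩
    have h5 := h P hP (by omega) hin
    rw [← hh_eq hP] at h5
    have e0 : P.card - 4 + 3 = P.card - 1 := by omega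
    rw [e0] at h5
    have e4 := asc_fac (t := T.card) (p := P.card) (by omega) ht
    have m3 := asc_mono hsz (P.card - T.card)
    set F := T.card.ascFactorial (P.card - T.card) with hF
    have key : r * F < hh P := by
      have h6 : 6 ≤ (T.card - 1).factorial := by
        have : Nat.factorial 3 ≤ (T.card - 1).factorial := Nat.factorial_le (by omega)
        simpa [Nat.factorial] using this
      have h8 : 6 * (r * F) < 6 * hh P := by
        refine lt_of_le_of_lt ?_ h5
        rw [← e4]
        calc 6 * (r * F) ≤ (T.card - 1).factorial * (r * F) := Nat.mul_le_mul_right _ h6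
          _ = _ := by ring
      omega
    unfold prb
    rcases hj with ⟨rfl, hC⟩ | ⟨rfl, hC⟩
    · rw [if_pos rfl, if_pos hTP]
      have n1 : C * (2 * (sz T).ascFactorial (P.card - T.card)) ≤ 2 * (r * F) := by
        calc C * (2 * (sz T).ascFactorial (P.card - T.card))
            = 2 * (C * (sz T).ascFactorial (P.card - T.card)) := by ring
          _ ≤ 2 * (r * F) := Nat.mul_le_mul_left 2 (Nat.mul_le_mul hC m3)
      omega
    · rw [if_neg one_ne_zero, if_pos rfl, if_pos hTP]
      have n1 : C * (4 * (sz T).ascFactorial (P.card - T.card)) ≤ 2 * (r * F) := by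
        calc C * (4 * (sz T).ascFactorial (P.card - T.card))
            = 2 * ((2 * C) * (sz T).ascFactorial (P.card - T.card)) := by ring
          _ ≤ 2 * (r * F) := Nat.mul_le_mul_left 2 (Nat.mul_le_mul hC m3)
      omega
  · unfold prb
    rcases hj with ⟨rfl, hC⟩ | ⟨rfl, hC⟩
    · rw [if_pos rfl, if_neg hTP, mul_zero]; omega
    · rw [if_neg one_ne_zero, if_pos rfl, if_neg hTP, mul_zero]; omega

/-- In a set of odd primes with an element congruent to 1 modulo 4 and at least four elements there is a
large element whose removal leaves an element congruent to 1 modulo 4. -/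
lemma exists_large' (P : Finset ℕ) (hP : ∀ p ∈ P, p % 2 = 1 ∧ 3 ≤ p) (h4 : 4 ≤ P.card)
    (h1 : ∃ p ∈ P, p % 4 = 1) : ∃ p ∈ P, P.card ≤ (p - 1) / 2 ∧ ∃ q ∈ P.erase p, q % 4 = 1 := by
  obtain ⟨q, hq, hq1⟩ := h1
  obtain ⟨p, hp, hpl⟩ := exists_large P hP ⟨q, hq⟩
  by_cases hpq : ∃ q ∈ P.erase p, q % 4 = 1
  · exact ⟨p, hp, hpl, hpq⟩
  · -- `p` is the only element congruent to 1 modulo 4
    push Not at hpq
    have hpq' : q = p := by
      by_contra hne
      exact hpq q (mem_erase.mpr ⟨hne, hq⟩) hq1
    have hne : (P.erase p).Nonempty := card_pos.mp (by rw [card_erase_of_mem hp]; omega)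
    set x := (P.erase p).max' hne with hx
    have hxm : x ∈ P.erase p := (P.erase p).max'_mem hne
    have hx2 := hP x (mem_of_mem_erase hxm)
    have hc : (P.erase p).card ≤ (x + 1) / 4 := by
      have e1 : ((P.erase p).image (fun y => (y + 1) / 4)).card = (P.erase p).card := by
        apply card_image_of_injOn
        intro a ha b hb hab
        have h2 := hP a (mem_of_mem_erase ha)
        have h3 := hP b (mem_of_mem_erase hb)
        have h5 := hpq a ha
        have h6 := hpq b hb
        change (a + 1) / 4 = (b + 1) / 4 at hab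
        omega
      have e2 : (P.erase p).image (fun y => (y + 1) / 4) ⊆ Icc 1 ((x + 1) / 4) := by
        intro z hz
        rw [mem_image] at hz
        obtain ⟨y, hy, rfl⟩ := hz
        rw [mem_Icc]
        have h3 := hP y (mem_of_mem_erase hy)
        have h4 := (P.erase p).le_max' y hy
        exact ⟨by omega, Nat.div_le_div_right (by omega)⟩
      have e3 := card_le_card e2
      rw [e1, Nat.card_Icc] at e3
      omega
    rw [card_erase_of_mem hp] at hc
    refine ⟨x, mem_of_mem_erase hxm, by omega, p, ?_, by rw [← hpq']; exact hq1⟩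
    exact mem_erase.mpr ⟨(ne_of_mem_erase hxm).symm, hp⟩

/-- It suffices to consider the sets with `k` elements. -/
theorem condK_of {k D m : ℕ} (hk : k = 3 ∨ k = 4) (h : ∀ P : Finset ℕ, P.card = k →
    (∀ p ∈ P, p.Prime ∧ p ≠ 2 ∧ p ∣ m) → (∃ p ∈ P, p % 4 = 1) → 2 ^ k * D < ∏ p ∈ P, (p - 1)) :
    CondK k D m := by
  have key : ∀ j (P : Finset ℕ), P.card = j + k → (∀ p ∈ P, p.Prime ∧ p ≠ 2 ∧ p ∣ m) →
      (∃ p ∈ P, p % 4 = 1) → D * (j + 3).factorial < 6 * ∏ p ∈ P, (p - 1) / 2 := by
    intro j
    induction j with
    | zero =>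
      intro P hc hP h1
      have h1 := h P (by omega) hP h1
      have h2 : ∏ p ∈ P, (p - 1) = ∏ p ∈ P, (2 * ((p - 1) / 2)) := by
        refine prod_congr rfl fun p hp => ?_
        have h3 := (hP p hp).1.eq_two_or_odd.resolve_left (hP p hp).2.1
        omega
      rw [h2, prod_mul_distrib, prod_const, hc, zero_add] at h1
      have h3 : Nat.factorial (0 + 3) = 6 := rfl
      rw [h3]
      have h4 := Nat.lt_of_mul_lt_mul_left h1
      omega
    | succ j ih =>
      intro P hc hP h1
      obtain ⟨p, hp, hpl, hp1⟩ := exists_large' P (fun p hp => by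
        have h1 := (hP p hp).1.eq_two_or_odd.resolve_left (hP p hp).2.1
        have h2 := (hP p hp).1.two_le
        exact ⟨h1, by omega⟩) (by omega) h1
      have hce : (P.erase p).card = j + k := by rw [card_erase_of_mem hp]; omega
      have h1 := ih (P.erase p) hce (fun q hq => hP q (mem_of_mem_erase hq)) hp1
      rw [← mul_prod_erase P (fun p => (p - 1) / 2) hp]
      have e1 : (j + 1 + 3).factorial = (j + 4) * (j + 3).factorial := by
        rw [show j + 1 + 3 = (j + 3) + 1 by ring, Nat.factorial_succ]
      rw [e1]
      calc D * ((j + 4) * (j + 3).factorial)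
          = (j + 4) * (D * (j + 3).factorial) := by ring
        _ < (j + 4) * (6 * ∏ q ∈ P.erase p, (q - 1) / 2) :=
            Nat.mul_lt_mul_of_pos_left h1 (by omega)
        _ ≤ ((p - 1) / 2) * (6 * ∏ q ∈ P.erase p, (q - 1) / 2) :=
            Nat.mul_le_mul_right _ (by omega)
        _ = _ := by ring
  intro P hP h3 h1
  exact key (P.card - k) P (by omega) hP h1

end Pool.Agent.N198.NF
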