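import Pool.Agent.N198.TE.Cov
import Pool.Agent.N198.NF.Kill

/-!
Hodge characters with few entries and even parities: the main theorem for one multiset.
-/

set_option linter.unusedSectionVars false

namespace Pool.Agent.N198.NF

open Finset Pool.Agent.H916R2 Pool.Agent.N992 Pool.Agent.N993 Pool.Agent.H916K Pool.Agent.N997.P
  Pool.Agent.N198.TP Pool.Agent.N198.TB Pool.Agent.N198.TE

/-- With `n = 2 r - 2` this is `4 n + 9` for even `m` and `2 n + 5` for odd `m`. -/
def bd (r m : ℕ) : ℕ := if 2 ∣ m then 8 * r + 1 else 4 * r + 1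

/-- For any `k` odd prime factors `p ≤ B` of `m`, one of which is congruent to 1 modulo 4, the product of
the `p - 1` is larger than `D`. -/
def Large (k D B m : ℕ) : Prop :=
  ∀ T : Finset ℕ, T.card = k → (∀ p ∈ T, p.Prime ∧ p ≠ 2 ∧ p ∣ m ∧ p ≤ B) → (∃ p ∈ T, p % 4 = 1) →
    D < ∏ p ∈ T, (p - 1)

/-- The degrees `m` which are covered in dimension `n = 2 r - 2`. -/
def Covered (r m : ℕ) : Prop :=
  r ≤ 4 ∨ (r ≤ 7 ∧ m % 4 = 2) ∨ (r ≤ 8 ∧ ¬ 15 ∣ m) ∨ (r ≤ 14 ∧ (m % 2 = 1 ∨ ¬ 3 ∣ m)) ∨
    Large 3 (16 * r) (bd r m) m ∨ (m % 2 = 1 ∧ Large 4 (32 * r) (bd r m) m) ∨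
    (m % 4 = 2 ∧ Large 4 (64 * r) (bd r m) m) ∨ SmallSquares (bd r m) m

/-- Degrees not divisible by 3. -/
lemma large_of_not3 {r m B : ℕ} (h3 : ¬ 3 ∣ m) (hr : r ≤ 14) : Large 3 (16 * r) B m := by
  intro T hT hp _
  have := three_of_not3 (r := r) (B := B) h3 hr T hT hp
  omega

/-- Degrees not divisible by 15. -/
lemma large_of_not15 {r m B : ℕ} (h15 : ¬ 15 ∣ m) (hr : r ≤ 8) : Large 3 (16 * r) B m := by
  by_cases h3 : 3 ∣ m
  · have h5 : ¬ 5 ∣ m := fun h5 => h15 (Nat.Coprime.mul_dvd_of_dvd_of_dvd (by norm_num) h3 h5)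
    intro T hT hp h1
    obtain ⟨a, b, c, hab, hbc, rfl⟩ := three_sorted hT
    rw [prod_three hab hbc]
    obtain ⟨pa, pa2, pam, _⟩ := hp a (by simp)
    obtain ⟨pb, _, pbm, _⟩ := hp b (by simp)
    obtain ⟨pc, _, _, _⟩ := hp c (by simp)
    have ha : 3 ≤ a := by
      have := pa.two_le
      omega
    have hb : 7 ≤ b := by
      have hb5 : 5 ≤ b := prime_gt_three pb (by omega)
      apply prime_gt_five pb
      have h4 : b ≠ 5 := by rintro rfl; exact h5 pbm
      omega
    have hc : 11 ≤ c := prime_gt_seven pc (by omega)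
    have hc' : 13 ≤ c := by
      by_contra hcon
      have hc12 : c = 11 ∨ c = 12 := by omega
      rcases hc12 with hc11 | hc12
      · have hb7 : b = 7 := by
          by_contra hb7
          have : b = 8 ∨ b = 9 ∨ b = 10 := by omega
          rcases this with h | h | h <;> rw [h] at pb <;> revert pb <;> norm_num
        have ha3 : a = 3 := by
          by_contra ha3
          have : a = 4 ∨ a = 5 ∨ a = 6 := by omega
          rcases this with h | h | h
          · rw [h] at pa; revert pa; norm_num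
          · rw [h] at pam; exact h5 pam
          · rw [h] at pa; revert pa; norm_num
        obtain ⟨p, hpT, hp1⟩ := h1
        rw [hc11, hb7, ha3] at hpT
        simp only [mem_insert, mem_singleton] at hpT
        rcases hpT with rfl | rfl | rfl <;> omega
      · rw [hc12] at pc; revert pc; norm_num
    have h5 : 2 * (6 * 12) ≤ (a - 1) * ((b - 1) * (c - 1)) :=
      Nat.mul_le_mul (by omega) (Nat.mul_le_mul (by omega) (by omega))
    omega
  · exact large_of_not3 h3 (by omega)

/-- Less than `480`. -/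
lemma large_four_thirty {D B m : ℕ} (hD : D < 480) : Large 4 D B m := by
  intro T hT hp _
  have := Pool.Agent.N353.TB.prime_thirty T (fun p hpT => by
    obtain ⟨h1, h2, _⟩ := hp p hpT
    exact ⟨h1, h1.eq_two_or_odd.resolve_left h2⟩) hT
  omega

/-- The numbers with a prime factor structure -/
lemma four_sorted {T : Finset ℕ} (h : T.card = 4) :
    ∃ a b c d, a < b ∧ b < c ∧ c < d ∧ T = {a, b, c, d} := by
  have hne : T.Nonempty := card_pos.mp (by omega)
  have hm := T.max'_mem hne
  obtain ⟨a, b, c, h1, h2, h3⟩ := three_sorted (T := T.erase (T.max' hne))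
    (by rw [card_erase_of_mem hm]; omega)
  refine ⟨a, b, c, T.max' hne, h1, h2, ?_, ?_⟩
  · have hc : c ∈ T.erase (T.max' hne) := by rw [h3]; simp
    exact lt_of_le_of_ne (T.le_max' c (mem_of_mem_erase hc)) (ne_of_mem_erase hc)
  · have e := insert_erase hm
    rw [h3] at e
    refine e.symm.trans ?_
    ext x
    simp only [mem_insert, mem_singleton]
    tauto

lemma prod_four {a b c d : ℕ} (h1 : a < b) (h2 : b < c) (h3 : c < d) :
    ∏ p ∈ ({a, b, c, d} : Finset ℕ), (p - 1) = (a - 1) * ((b - 1) * ((c - 1) * (d - 1))) := by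
  rw [prod_insert, prod_insert, prod_insert, prod_singleton]
  · rw [mem_singleton]; omega
  · rw [mem_insert, mem_singleton]; omega
  · rw [mem_insert, mem_insert, mem_singleton]; omega

lemma prime_gt_eleven {c : ℕ} (hc : c.Prime) (h : 11 < c) : 13 ≤ c := by
  by_contra h1
  have : c = 12 := by omega
  subst this
  revert hc; norm_num

/-- Four odd primes, not all of 3 and 5. -/
lemma large_four_not15 {D m B : ℕ} (h15 : ¬ 15 ∣ m) (hD : D < 1440) : Large 4 D B m := by
  intro T hT hp _
  obtain ⟨a, b, c, d, hab, hbc, hcd, rfl⟩ := four_sorted hT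
  rw [prod_four hab hbc hcd]
  obtain ⟨pa, pa2, pam, _⟩ := hp a (by simp)
  obtain ⟨pb, _, pbm, _⟩ := hp b (by simp)
  obtain ⟨pc, _, _, _⟩ := hp c (by simp)
  obtain ⟨pd, _, _, _⟩ := hp d (by simp)
  have ha : 3 ≤ a := by
    have := pa.two_le
    omega
  have hb5 : 5 ≤ b := prime_gt_three pb (by omega)
  have hb : 7 ≤ b := by
    by_contra hb7
    have hb56 : b = 5 ∨ b = 6 := by omega
    rcases hb56 with hb | hb
    · have ha3 : a = 3 := by
        by_contra ha3
        have : a = 4 := by omega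
        rw [this] at pa; revert pa; norm_num
      rw [ha3] at pam
      rw [hb] at pbm
      exact h15 (Nat.Coprime.mul_dvd_of_dvd_of_dvd (by norm_num) pam pbm)
    · rw [hb] at pb; revert pb; norm_num
  have hc : 11 ≤ c := prime_gt_seven pc (by omega)
  have hd : 13 ≤ d := prime_gt_eleven pd (by omega)
  have h5 : 2 * (6 * (10 * 12)) ≤ (a - 1) * ((b - 1) * ((c - 1) * (d - 1))) :=
    Nat.mul_le_mul (by omega) (Nat.mul_le_mul (by omega) (Nat.mul_le_mul (by omega) (by omega)))
  omega

/-- Four primes larger than 3. -/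
lemma large_four_not3 {D m B : ℕ} (h3 : ¬ 3 ∣ m) (hD : D < 2880) : Large 4 D B m := by
  intro T hT hp _
  obtain ⟨a, b, c, d, hab, hbc, hcd, rfl⟩ := four_sorted hT
  rw [prod_four hab hbc hcd]
  obtain ⟨pa, pa2, pam, _⟩ := hp a (by simp)
  obtain ⟨pb, _, pbm, _⟩ := hp b (by simp)
  obtain ⟨pc, _, _, _⟩ := hp c (by simp)
  obtain ⟨pd, _, _, _⟩ := hp d (by simp)
  have ha : 5 ≤ a := by
    apply prime_gt_three pa
    have := pa.two_le
    have h4 : a ≠ 3 := by rintro rfl; exact h3 pam
    omega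
  have hb : 7 ≤ b := prime_gt_five pb (by omega)
  have hc : 11 ≤ c := prime_gt_seven pc (by omega)
  have hd : 13 ≤ d := prime_gt_eleven pd (by omega)
  have h5 : 4 * (6 * (10 * 12)) ≤ (a - 1) * ((b - 1) * ((c - 1) * (d - 1))) :=
    Nat.mul_le_mul (by omega) (Nat.mul_le_mul (by omega) (Nat.mul_le_mul (by omega) (by omega)))
  omega

/-- Examples: odd degrees. -/
theorem covered_odd {r m : ℕ} (hm : m % 2 = 1)
    (h : r ≤ 14 ∨ (r ≤ 44 ∧ ¬ 15 ∣ m) ∨ (r ≤ 89 ∧ ¬ 3 ∣ m)) : Covered r m := by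
  rcases h with h | ⟨h, h15⟩ | ⟨h, h3⟩
  · exact Or.inr (Or.inr (Or.inr (Or.inl ⟨h, Or.inl hm⟩)))
  · exact Or.inr (Or.inr (Or.inr (Or.inr (Or.inr (Or.inl
      ⟨hm, large_four_not15 h15 (by omega)⟩)))))
  · exact Or.inr (Or.inr (Or.inr (Or.inr (Or.inr (Or.inl
      ⟨hm, large_four_not3 h3 (by omega)⟩)))))

/-- Examples: twice odd degrees. -/
theorem covered_two {r m : ℕ} (hm : m % 4 = 2)
    (h : r ≤ 7 ∨ (r ≤ 22 ∧ ¬ 15 ∣ m) ∨ (r ≤ 44 ∧ ¬ 3 ∣ m)) : Covered r m := by
  rcases h with h | ⟨h, h15⟩ | ⟨h, h3⟩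
  · exact Or.inr (Or.inl ⟨h, hm⟩)
  · exact Or.inr (Or.inr (Or.inr (Or.inr (Or.inr (Or.inr (Or.inl
      ⟨hm, large_four_not15 h15 (by omega)⟩))))))
  · exact Or.inr (Or.inr (Or.inr (Or.inr (Or.inr (Or.inr (Or.inl
      ⟨hm, large_four_not3 h3 (by omega)⟩))))))

/-- Reduction to the small degree. -/
theorem gen_t (r m : ℕ) [NeZero m]
    (H : ∀ [NeZero (reducedDegree r m)] (s0 : Multiset (ZMod (reducedDegree r m))),
      IsHodge (reducedDegree r m) s0 → s0 ≠ 0 → Multiset.card s0 ≤ 2 * r →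
      (∀ p : ℕ, p.Prime → p ∣ reducedDegree r m → p % 4 = 1 →
        (s0.map (pr p (reducedDegree r m))).sum = 0) →
      ∃ l : ℕ, ∃ _ : NeZero (l * reducedDegree r m),
        Generated (l * reducedDegree r m) (ModularCharacter (l * reducedDegree r m))
          (s0.map (iota l : ZMod (reducedDegree r m) → ZMod (l * reducedDegree r m))))
    (t : Multiset (ZMod m)) (htne : t ≠ 0) (hcard : Multiset.card t ≤ 2 * r) (hH : IsHodge m t)
    (hpar : ∀ p : ℕ, p.Prime → p ∣ m → p % 4 = 1 → (t.map (pr p m)).sum = 0) :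
    ∃ l : ℕ, ∃ _ : NeZero (l * m), Generated (l * m) (ModularCharacter (l * m))
        (t.map (fun a => ((l * a.val : ℕ) : ZMod (l * m)))) := by
  classical
  have hm : 0 < m := NeZero.pos m
  have hr : 0 < r := by
    rcases Nat.eq_zero_or_pos r with rfl | h
    · exfalso
      apply htne
      rw [← Multiset.card_eq_zero]; omega
    · exact h
  have key := reduce_hodge2 r t hH hcard hr
  have hgm : reducedDegree r m ∣ m := Nat.gcd_dvd_left _ _
  generalize reducedDegree r m = g at key H hgm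
  obtain ⟨s0, L, L', hs0, hs0c, hL, hLL, hid⟩ := key
  have hg0 : NeZero g := ⟨fun h => by rw [h] at hgm; exact hm.ne' (Nat.eq_zero_of_zero_dvd hgm)⟩
  have hLm : NeZero (L * m) := ⟨Nat.mul_ne_zero hL.ne' hm.ne'⟩
  have hpar0 : ∀ p : ℕ, p.Prime → p ∣ g → p % 4 = 1 → (s0.map (pr p g)).sum = 0 := by
    intro p hp hpg hp4
    have hD : OddDist (pr p (L * m)) := pr_odd hp (by omega)
    have h1 := hid (L * m) rfl (ZMod 2) _ hD
    rw [Multiset.map_map, Multiset.map_map] at h1
    have h2 : (s0.map (pr p (L * m) ∘ iota L')) = s0.map (pr p g) :=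
      Multiset.map_congr rfl fun b _ => pr_iota hp hLL.symm b
    have h3 : (t.map (pr p (L * m) ∘ iota L)) = t.map (pr p m) :=
      Multiset.map_congr rfl fun b _ => pr_iota hp rfl b
    rw [h2, h3, hpar p hp (hpg.trans hgm) hp4] at h1
    exact h1.symm
  by_cases hs00 : s0 = 0
  · refine ⟨L, hLm, ?_⟩
    refine gen_of_kill (M := L * m) (g := g) (q' := L')
      (fun s hs => ⟨hs.1.1, hs.1.2.1⟩) (fun s hs => hs.neg) rfl hH htne s0 ?_ ?_
    · intro R _ c hc
      exact hid (L * m) rfl R c hc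
    · intro R _ c hc hk
      rw [hs00]; simp
  obtain ⟨l, hl, hgen⟩ := H s0 hs0 hs00 hs0c hpar0
  have hl0 : l ≠ 0 := by rintro rfl; rw [zero_mul] at hl; exact hl.out rfl
  have hM : NeZero (l * L * m) := ⟨Nat.mul_ne_zero (Nat.mul_ne_zero hl0 hL.ne') hm.ne'⟩
  have e1 : l * (L * m) = l * L * m := by ring
  have e2 : L' * (l * g) = l * L * m := by
    rw [mul_assoc, hLL]; ring
  refine ⟨l * L, hM, ?_⟩
  refine gen_of_kill (M := l * L * m) (g := g) (q' := L' * l)
    (fun s hs => ⟨hs.1.1, hs.1.2.1⟩) (fun s hs => hs.neg) rfl hH htne s0 ?_ ?_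
  · intro R _ c hc
    have h1 := hid (L * m) rfl R (fun b => c (iota l b)) (hc.comp_iota e1)
    rw [Multiset.map_map, Multiset.map_map] at h1 ⊢
    have h2 : t.map ((fun b : ZMod (L * m) => c (iota l b)) ∘ iota L) =
        t.map (c ∘ iota (l * L)) := Multiset.map_congr rfl fun b _ => by
      simp only [Function.comp_apply]
      rw [iota_comp e1]
    have h3 : s0.map ((fun b : ZMod (L * m) => c (iota l b)) ∘ iota L') =
        s0.map (c ∘ iota (L' * l)) := Multiset.map_congr rfl fun b _ => by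
      simp only [Function.comp_apply]
      rw [iota_comp e1, mul_comm l L']
    rw [h2, h3] at h1
    exact h1
  · intro R _ c hc hk
    have h1 := kill_generated (hc.comp_iota e2) (base := ModularCharacter (l * g)) (by
      intro u hu
      have h2 := hk _ (hu.lift e2)
      rw [Multiset.map_map] at h2
      exact h2) hgen
    rw [Multiset.map_map] at h1
    rw [Multiset.map_map, ← h1]
    congr 1
    refine Multiset.map_congr rfl fun b _ => ?_
    simp only [Function.comp_apply]
    rw [iota_comp e2]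

section

variable (r m : ℕ) [NeZero m] (t : Multiset (ZMod m)) (htne : t ≠ 0)
  (hcard : Multiset.card t ≤ 2 * r) (hH : IsHodge m t)
  (hpar : ∀ p : ℕ, p.Prime → p ∣ m → p % 4 = 1 → (t.map (pr p m)).sum = 0)

include htne hcard hH hpar

theorem fine_t (hL : r ≤ 4 ∨ ∀ d, d ∣ 8 * reducedDegree r m →
      (reducedDegree r m % 4 = 0 ∨ d % 2 = 1 ∨ (reducedDegree r m % 4 = 2 ∧ d % 4 = 2)) →
      Fine (2 * r) d) :
    ∃ l : ℕ, ∃ _ : NeZero (l * m), Generated (l * m) (ModularCharacter (l * m))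
        (t.map (fun a => ((l * a.val : ℕ) : ZMod (l * m)))) := by
  have hgB : ∀ p, p.Prime → p ∣ reducedDegree r m → p ≤ primeBound r m := fun p hp hpg =>
    Pool.Agent.N198.TP.prime_le_of_dvd_smallDegree hp (hpg.trans (Nat.gcd_dvd_right _ _))
  refine gen_t r m ?_ t htne hcard hH hpar
  intro _ s0 hs0 hs00 hs0c hpar
  have hg0 : reducedDegree r m ≠ 0 := NeZero.ne _
  have h8 : NeZero (8 * reducedDegree r m) := ⟨mul_ne_zero (by norm_num) hg0⟩
  have hp8 : ∀ p, p.Prime → p ∣ 8 * reducedDegree r m → p ≠ 2 → p ∣ reducedDegree r m := by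
    intro p hp hpm hp2
    rcases (Nat.Prime.dvd_mul hp).mp hpm with h1 | h1
    · exfalso
      have h2 : p ∣ 2 ^ 3 := h1
      exact hp2 ((Nat.prime_dvd_prime_iff_eq hp Nat.prime_two).mp (hp.dvd_of_dvd_pow h2))
    · exact h1
  obtain ⟨L, hL0, hkill⟩ := kill_fine (m := 8 * reducedDegree r m) (dvd_mul_right 8 _) (2 * r)
  have hN : NeZero (L * 8 * reducedDegree r m) := ⟨mul_ne_zero (mul_ne_zero hL0 (by norm_num)) hg0⟩
  refine ⟨L * 8, hN, ?_⟩
  refine gen_of_kill (M := L * 8 * reducedDegree r m) (m := reducedDegree r m)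
    (g := reducedDegree r m) (q := L * 8) (q' := L * 8) (fun s hs => ⟨hs.1.1, hs.1.2.1⟩)
    (fun s hs => hs.neg) rfl hs0 hs00 s0 (fun R _ c _ => rfl) (fun R _ c hcO hk => ?_)
  have h1 := hkill (s0.map (iota 8 : ZMod (reducedDegree r m) → ZMod (8 * reducedDegree r m)))
    (by rw [Multiset.card_map]; exact hs0c) (by
      rcases hL with h | h
      · left
        refine ⟨by omega, fun p hp hpm => ?_⟩
        by_cases hp2 : p = 2
        · omega
        have h1 := hgB p hp (hp8 p hp hpm hp2)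
        have h2 : primeBound r m ≤ 33 := by
          unfold primeBound
          split_ifs <;> omega
        by_contra h3
        have h4 : p = 32 ∨ p = 33 := by omega
        rcases h4 with rfl | rfl <;> revert hp <;> norm_num
      · right
        intro a ha
        obtain ⟨b, _, rfl⟩ := Multiset.mem_map.mp ha
        have h2 : addOrderOf (iota 8 b : ZMod (8 * reducedDegree r m)) ∣ reducedDegree r m := by
          apply addOrderOf_dvd_of_nsmul_eq_zero
          unfold iota
          rw [nsmul_eq_mul, ← Nat.cast_mul, ZMod.natCast_eq_zero_iff]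
          exact ⟨b.val, by ring⟩
        refine h _ (h2.trans (dvd_mul_left _ _)) ?_
        generalize addOrderOf (iota 8 b : ZMod (8 * reducedDegree r m)) = d at h2
        have h3 : reducedDegree r m % 4 < 4 := Nat.mod_lt _ (by norm_num)
        by_cases hd2 : d % 2 = 1
        · exact Or.inr (Or.inl hd2)
        have hd2' : 2 ∣ d := by omega
        have hg2 : 2 ∣ reducedDegree r m := hd2'.trans h2
        by_cases hg4 : reducedDegree r m % 4 = 0
        · exact Or.inl hg4
        right; right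
        refine ⟨by omega, ?_⟩
        by_contra hd4
        have h5 : 4 ∣ d := by omega
        have h6 := h5.trans h2
        omega)
    (hs0.iota rfl).rel (by
      intro p hp hpm hp4
      rw [Multiset.map_map]
      have h2 := hpar p hp (hp8 p hp hpm (by rintro rfl; omega)) hp4
      rw [← h2]
      congr 1
      refine Multiset.map_congr rfl fun b _ => ?_
      exact Pool.Agent.N198.TP.pr_iota hp rfl b)
    1 (L * 8 * reducedDegree r m) (by ring) R c hcO hk
  rw [Multiset.map_map] at h1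
  rw [Multiset.map_map, ← h1]
  congr 1
  refine Multiset.map_congr rfl fun b _ => ?_
  simp only [Function.comp_apply]
  rw [iota_comp (by ring), one_mul]

theorem squares_t (hg : SmallSquares (primeBound r m) m) :
    ∃ l : ℕ, ∃ _ : NeZero (l * m), Generated (l * m) (ModularCharacter (l * m))
        (t.map (fun a => ((l * a.val : ℕ) : ZMod (l * m)))) := by
  refine gen_t r m ?_ t htne hcard hH hpar
  intro _ s0 hs0 hs00 _ _
  obtain ⟨l, hl, _, h⟩ := Pool.Agent.N993.main (reducedDegree r m) (reduced_squares r m hg)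
  exact ⟨l, hl, h s0 hs0 hs00⟩

/-- **Hodge characters with few entries and even parities.** -/
theorem core (hm : Covered r m) :
    ∃ l : ℕ, ∃ _ : NeZero (l * m), Generated (l * m) (ModularCharacter (l * m))
        (t.map (fun a => ((l * a.val : ℕ) : ZMod (l * m)))) := by
  have hgm : reducedDegree r m ∣ m := Nat.gcd_dvd_left _ _
  have hgB : ∀ p, p.Prime → p ∣ reducedDegree r m → p ≤ primeBound r m := fun p hp hpg =>
    Pool.Agent.N198.TP.prime_le_of_dvd_smallDegree hp (hpg.trans (Nat.gcd_dvd_right _ _))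
  have hp8 : ∀ p, p.Prime → p ∣ 8 * reducedDegree r m → p ≠ 2 → p ∣ reducedDegree r m := by
    intro p hp hpm hp2
    rcases (Nat.Prime.dvd_mul hp).mp hpm with h1 | h1
    · exfalso
      have h2 : p ∣ 2 ^ 3 := h1
      exact hp2 ((Nat.prime_dvd_prime_iff_eq hp Nat.prime_two).mp (hp.dvd_of_dvd_pow h2))
    · exact h1
  -- the conditions on the sets of primes
  have hcond : ∀ {k D : ℕ}, k = 3 ∨ k = 4 → Large k (2 ^ k * D) (bd r m) m →
      CondK k D (8 * reducedDegree r m) := by
    intro k D hk h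
    refine condK_of hk fun P hc hP h1 => ?_
    refine h P hc (fun p hp => ?_) h1
    obtain ⟨a1, a2, a3⟩ := hP p hp
    have a4 := hp8 p a1 a3 a2
    exact ⟨a1, a2, a4.trans hgm, hgB p a1 a4⟩
  have key3 : Large 3 (16 * r) (bd r m) m → _ := fun h =>
    fine_t r m t htne hcard hH hpar (Or.inr fun d hd _ =>
      fine_all (hcond (D := 2 * r) (Or.inl rfl) (by
        have e : 2 ^ 3 * (2 * r) = 16 * r := by ring
        rw [e]; exact h)) hd)
  have hlev0 : ∀ d : ℕ, d % 2 = 1 → LB.lev2 d = 0 := by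
    intro d hd
    unfold LB.lev2
    rw [padicValNat.eq_zero_of_not_dvd (by omega)]
    rfl
  have hlev1 : ∀ d : ℕ, d % 4 = 2 → LB.lev2 d = 1 := by
    intro d hd
    obtain ⟨e, he⟩ : ∃ e, d = 2 * e := ⟨d / 2, by omega⟩
    have hf : Fact (Nat.Prime 2) := ⟨Nat.prime_two⟩
    unfold LB.lev2
    rw [he, padicValNat.mul (by norm_num) (by omega), padicValNat.self (by norm_num),
      padicValNat.eq_zero_of_not_dvd (by omega)]
    rfl
  have hodd : m % 2 = 1 → Large 4 (32 * r) (bd r m) m → _ := fun ho h =>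
    fine_t r m t htne hcard hH hpar (Or.inr fun d hd hd' => by
      have hg : reducedDegree r m % 2 = 1 := by
        rcases Nat.mod_two_eq_zero_or_one (reducedDegree r m) with h | h
        · exfalso
          have h2 : 2 ∣ m := (Nat.dvd_of_mod_eq_zero h).trans hgm
          omega
        · exact h
      have hd2 : d % 2 = 1 := by omega
      refine fine_low (r := 2 * r) (hcond (Or.inr rfl) ?_) hd (Or.inl ⟨hlev0 d hd2, le_rfl⟩)
      have e : 2 ^ 4 * (2 * r) = 32 * r := by ring
      rw [e]; exact h)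
  have htwo : m % 4 = 2 → Large 4 (64 * r) (bd r m) m → _ := fun ho h =>
    fine_t r m t htne hcard hH hpar (Or.inr fun d hd hd' => by
      have hg : reducedDegree r m % 4 ≠ 0 := by
        intro h
        have h2 : 4 ∣ m := (Nat.dvd_of_mod_eq_zero h).trans hgm
        omega
      have h4 : CondK 4 (4 * r) (8 * reducedDegree r m) := hcond (Or.inr rfl) (by
        have e : 2 ^ 4 * (4 * r) = 64 * r := by ring
        rw [e]; exact h)
      by_cases hd2 : d % 2 = 1
      · exact fine_low (r := 4 * r) h4 hd (Or.inl ⟨hlev0 d hd2, by omega⟩)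
      · exact fine_low (r := 4 * r) h4 hd (Or.inr ⟨hlev1 d (by omega), by omega⟩))
  rcases hm with h | ⟨hr, h⟩ | ⟨hr, h⟩ | ⟨hr, h⟩ | h | ⟨ho, h⟩ | ⟨h2, h⟩ | h
  · exact fine_t r m t htne hcard hH hpar (Or.inl h)
  · exact htwo h (large_four_thirty (by omega))
  · exact key3 (large_of_not15 h hr)
  · rcases h with h | h
    · exact hodd h (large_four_thirty (by omega))
    · exact key3 (large_of_not3 h hr)
  · exact key3 h
  · exact hodd ho h
  · exact htwo h2 h
  · exact squares_t r m t htne hcard hH hpar h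

end

end Pool.Agent.N198.NF
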