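import Mathlib
import Pool.Agent.H916R2.Defs

/-!
# Eigenlines of diagonal hypersurfaces over number fields

Let `k` be a number field, `c_0, ..., c_(n+1)` nonzero integers of `k` (`n` even) and let `X` be the
diagonal hypersurface `c_0 * x_0 ^ m + ... + c_(n+1) * x_(n+1) ^ m = 0`. Over the field `K` of `m`-th
roots of unity over `k` its primitive middle cohomology splits into lines `V(a)`, indexed by the tuples
`a` of `n + 2` nonzero residues modulo `m` with sum zero. Weil: the Frobenius element of a prime `P` of
`K` with residue field `F` of `q` elements acts on `V(a)` as `q⁻¹ * ∏ g(χ ^ a_i) / χ ^ a_i (c_i)`, where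
`χ` is the character of order `m` of `F` attached to `P`; the values for the other characters of order
`m` are conjugate to this value.
-/

namespace Pool.Agent.N198.NF

open NumberField

/-- The Galois group of `K = k(μ_m)` acts trivially on the line `V(a)(n/2)`: for all but finitely many
primes of `K` the Frobenius eigenvalue on `V(a)` is `q ^ (n/2)`. The multiset `s` consists of the
`n + 2` pairs `(a_i, c_i)`. The residue fields `F` of the primes of `K` above a prime of `k` with residue
field `f.range` of `Q` elements have `Q ^ e` elements, where `e` is the order of `Q` modulo `m`. -/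
def TateClass (k : Type) [Field k] (m : ℕ) (s : Multiset (ZMod m × 𝓞 k)) : Prop :=
  ∃ N : ℕ, ∀ (F : Type) [Field F] [Fintype F] (f : 𝓞 k →+* F), N < ringChar F →
    Fintype.card F = Nat.card f.range ^ orderOf ((Nat.card f.range : ℕ) : ZMod m) →
    ∀ (χ : MulChar F ℂ) (ψ : AddChar F ℂ), orderOf χ = m → ψ ≠ 1 →
      (s.map fun z => gaussSum (χ ^ z.1.val) ψ).prod =
        (Fintype.card F : ℂ) ^ (Multiset.card s / 2) *
          (s.map fun z => (χ ^ z.1.val) (f z.2)).prod

/-- For all large primes `ℓ` modulo which the integers `0 ≤ d ≤ D` are squares there is a prime of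
`k` above `ℓ` of odd residue degree. -/
def OddPrimes (k : Type) [Field k] : Prop :=
  ∃ D : ℕ, ∀ ℓ : ℕ, ℓ.Prime → D < ℓ → (∀ d : ℕ, d ≤ D → IsSquare ((d : ℕ) : ZMod ℓ)) →
    ∃ (K : Type) (_ : Field K) (_ : Fintype K) (f : 𝓞 k →+* K), Function.Surjective f ∧
      ∃ e : ℕ, Odd e ∧ Fintype.card K = ℓ ^ e

end Pool.Agent.N198.NF
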