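import Mathlib
import Pool.Agent.H916R2.Defs

/-!
Number fields with primes of prescribed norm.
-/

namespace Pool.Agent.N198.NF

open NumberField

/-- For every prime number `q` congruent to 1 modulo 4 and every `R` prime to `q` there are residue fields
of `k` of large characteristic whose number of elements is `-1` modulo `R` and `1` modulo `q ^ b`. -/
def ManyPrimes (k : Type) [Field k] : Prop :=
  ∀ q b R N : ℕ, q.Prime → q % 4 = 1 → 0 < R → R.Coprime q →
    ∃ (K : Type) (_ : Field K) (_ : Fintype K) (f : 𝓞 k →+* K), Function.Surjective f ∧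
      N < ringChar K ∧ R ∣ Fintype.card K + 1 ∧ q ^ b ∣ Fintype.card K - 1

/-- Some element of the absolute Galois group of `k` acts on the `M`-th roots of unity as the `t`-th
power. -/
def Acts (k : Type) [Field k] (M t : ℕ) : Prop :=
  ∃ σ : AlgebraicClosure k ≃ₐ[k] AlgebraicClosure k, ∀ ζ : AlgebraicClosure k,
    ζ ^ M = 1 → σ ζ = ζ ^ t

end Pool.Agent.N198.NF
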