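import Pool.Agent.N279.NF.PAR
import Pool.Agent.N198.NF.Def2

/-!
# Even parities of Tate classes over number fields with primes of prescribed norm

Adapted from `Pool.Agent.N279.NF.even_of_tate` (helper279).
-/

set_option autoImplicit false
set_option linter.unusedSectionVars false

namespace Pool.Agent.N198.NF

open Finset NumberField Pool.Agent.N198.NF Pool.Agent.N279.NF
open Pool.Agent.H916K (exists_root mulChar_one AI exists_red pow_one_of_char mulChar_pow_one
  mulChar_pow_apply red_val exists_prime prod_signs)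

/-- **Parity.** -/
theorem even_of_tate2 {k : Type} [Field k] [NumberField k] (hk : ManyPrimes k) {m M q b : ℕ}
    (hm : m = M * q ^ b) (hM : 3 ≤ M) (hq : q.Prime) (hq4 : q % 4 = 1) (hcop : M.Coprime q)
    {s : Multiset (ZMod m × 𝓞 k)} (hc : ∀ z ∈ s, z.2 ≠ 0) (hT : TateClass k m s) :
    Even (s.countP fun z => M ∣ z.1.val) := by
  classical
  obtain ⟨N, hN⟩ := hT
  have hq2 : q ≠ 2 := by
    rintro rfl
    omega
  have h2q : Nat.Coprime 2 q := (Nat.coprime_primes Nat.prime_two hq).2 (fun h => hq2 h.symm)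
  obtain ⟨K, _, _, f0, hf0, hKN, hQM0, hqQ0⟩ := hk q (b + 1) (2 * M)
    (N + (s.map fun z => Ideal.absNorm (Ideal.span {z.2})).sum) hq hq4 (by omega)
    (Nat.Coprime.mul_left h2q hcop)
  obtain ⟨ℓ, hℓdef⟩ : ∃ ℓ, ℓ = ringChar K := ⟨_, rfl⟩
  rw [← hℓdef] at hKN
  have : CharP K ℓ := by rw [hℓdef]; infer_instance
  have hℓ : ℓ.Prime := by
    rcases CharP.char_is_prime_or_zero K ℓ with h | h
    · exact h
    · omega
  have : Fact ℓ.Prime := ⟨hℓ⟩
  have : Fact q.Prime := ⟨hq⟩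
  obtain ⟨F, _, _, _, hcard⟩ := exists_ext K ℓ
  obtain ⟨Q, hQ⟩ : ∃ Q : ℕ, Q = Fintype.card K := ⟨_, rfl⟩
  have hQ2 : 2 ≤ Q := by
    rw [hQ]
    exact Fintype.one_lt_card
  have hQM : 2 * M ∣ Q + 1 := by rw [hQ]; exact hQM0
  have hMQ : M ∣ Q + 1 := (Dvd.intro_left 2 rfl).trans hQM
  have hqQ : q ^ (b + 1) ∣ Q - 1 := by rw [hQ]; exact hqQ0
  have hqb : q ^ b ∣ Q - 1 := (pow_dvd_pow q (Nat.le_succ b)).trans hqQ
  have hcardF : Fintype.card F = Q ^ 2 := by rw [hcard, hQ]
  have hfac : Q ^ 2 - 1 = (Q + 1) * (Q - 1) := by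
    obtain ⟨k, rfl⟩ : ∃ k, Q = k + 1 := ⟨Q - 1, by omega⟩
    simp only [Nat.add_sub_cancel]
    have : (k + 1) ^ 2 = (k + 1 + 1) * k + 1 := by ring
    omega
  have hmdvd : m ∣ Q ^ 2 - 1 := by
    rw [hfac, hm]; exact Nat.mul_dvd_mul hMQ hqb
  have hord : orderOf (Q : ZMod m) = 2 := by
    have : Fact (Nat.Prime 2) := ⟨Nat.prime_two⟩
    apply orderOf_eq_prime
    · have h1 : ((Q ^ 2 - 1 : ℕ) : ZMod m) = 0 := (ZMod.natCast_eq_zero_iff _ _).mpr hmdvd
      rw [Nat.cast_sub (Nat.one_le_pow _ _ (by omega))] at h1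
      push_cast at h1
      linear_combination h1
    · intro h1
      have h2 : ((Q - 1 : ℕ) : ZMod m) = 0 := by
        rw [Nat.cast_sub (by omega), h1]; simp
      have h3 : m ∣ Q - 1 := (ZMod.natCast_eq_zero_iff _ _).mp h2
      have h4 : M ∣ Q - 1 := (hm ▸ Dvd.intro _ rfl : M ∣ m).trans h3
      have h5 : M ∣ (Q + 1) - (Q - 1) := Nat.dvd_sub hMQ h4
      have h6 : (Q + 1) - (Q - 1) = 2 := by omega
      rw [h6] at h5
      have := Nat.le_of_dvd (by norm_num) h5
      omega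
  obtain ⟨κ, _, _, ⟨φ⟩⟩ := exists_red hq
  -- roots of unity
  have hinj : Function.Injective (algebraMap AI ℂ) := Subtype.val_injective
  have hroot : ∀ n : ℕ, n ≠ 0 → ∃ ζ : AI, IsPrimitiveRoot ζ n := by
    intro n hn
    have h1 := Complex.isPrimitiveRoot_exp n hn
    have h2 : IsIntegral ℤ (Complex.exp (2 * Real.pi * Complex.I / n)) :=
      h1.isIntegral (Nat.pos_of_ne_zero hn)
    refine ⟨⟨_, h2⟩, ?_⟩
    exact IsPrimitiveRoot.of_map_of_injective (f := algebraMap AI ℂ) h1 hinj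
  have hm0 : m ≠ 0 := by
    rw [hm]; have := hq.pos; positivity
  obtain ⟨ζ, hζ⟩ := hroot m hm0
  obtain ⟨ξ, hξ⟩ := hroot ℓ hℓ.ne_zero
  obtain ⟨χ, hχ⟩ := MulChar.exists_mulChar_orderOf F (n := m)
    (by rw [hcardF]; exact hmdvd) hζ
  obtain ⟨ψ0, hψ1⟩ := exists_addChar K ℓ hξ
  set ψ := ψ0.compAddMonoidHom (Algebra.trace K F).toAddMonoidHom with hψdef
  have hψ2 : ψ ≠ 1 := by
    intro h
    apply hψ1
    ext c
    obtain ⟨x, hx⟩ := Algebra.trace_surjective K F c
    have h4 : ψ x = 1 := by rw [h]; rfl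
    rw [← hx]
    exact congrArg _ h4
  -- transfer to the complex numbers
  set χ' : MulChar F ℂ := χ.ringHomComp (algebraMap AI ℂ) with hχ'
  set ψ' : AddChar F ℂ := (algebraMap AI ℂ).toMonoidHom.compAddChar ψ with hψ'
  have hordχ : orderOf χ' = m := by
    rw [← hχ]
    exact orderOf_injective (MulChar.ringHomCompHom (algebraMap AI ℂ))
      (MulChar.injective_ringHomComp hinj) χ
  have hψ'1 : ψ' ≠ 1 := by
    intro h
    apply hψ2
    ext x
    have h1 : ψ' x = 1 := by rw [h]; rfl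
    exact h1
  obtain ⟨f, hf⟩ : ∃ f : 𝓞 k →+* F, f = (algebraMap K F).comp f0 := ⟨_, rfl⟩
  have hfa : ∀ c : 𝓞 k, f c = algebraMap K F (f0 c) := fun c => by rw [hf]; rfl
  have hrange : Nat.card f.range = Q := by
    have h1 : f.range = (algebraMap K F).range := by
      ext x
      constructor
      · rintro ⟨y, hy⟩
        exact ⟨f0 y, by rw [← hfa]; exact hy⟩
      · rintro ⟨y, hy⟩
        obtain ⟨z, rfl⟩ := hf0 y
        exact ⟨z, by rw [hfa]; exact hy⟩
    rw [h1, hQ, ← Nat.card_eq_fintype_card]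
    exact (Nat.card_congr (Equiv.ofBijective (algebraMap K F).rangeRestrict
      ⟨fun x y h => (algebraMap K F).injective (congrArg Subtype.val h),
        RingHom.rangeRestrict_surjective _⟩)).symm
  have hchar : ringChar F = ℓ := by
    rw [← Algebra.ringChar_eq K F, ringChar.eq_iff]
    infer_instance
  have h1 := hN F f (by rw [hchar]; omega) (by rw [hrange, hord]; exact hcardF) χ' ψ' hordχ hψ'1
  have hg : ∀ a : ℕ, gaussSum (χ' ^ a) ψ' = algebraMap AI ℂ (gaussSum (χ ^ a) ψ) := by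
    intro a
    unfold gaussSum
    rw [map_sum]
    refine sum_congr rfl fun x _ => ?_
    rw [map_mul, hχ', MulChar.ringHomComp_pow, MulChar.ringHomComp_apply]
    rfl
  have hcoef : ∀ (a : ℕ) (c : F), (χ' ^ a) c = algebraMap AI ℂ ((χ ^ a) c) := by
    intro a c
    rw [hχ', MulChar.ringHomComp_pow, MulChar.ringHomComp_apply]
  have h2 : (s.map fun z => gaussSum (χ ^ z.1.val) ψ).prod =
      (Fintype.card F : AI) ^ (Multiset.card s / 2) *
        (s.map fun z => (χ ^ z.1.val) (f z.2)).prod := by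
    apply hinj
    rw [map_mul, map_pow, map_natCast, map_multiset_prod, map_multiset_prod, Multiset.map_map,
      Multiset.map_map]
    have e1 : (s.map ((algebraMap AI ℂ) ∘ fun z => gaussSum (χ ^ z.1.val) ψ)) =
        s.map fun z => gaussSum (χ' ^ z.1.val) ψ' :=
      Multiset.map_congr rfl fun z _ => (hg _).symm
    have e2 : (s.map ((algebraMap AI ℂ) ∘ fun z => (χ ^ z.1.val) (f z.2))) =
        s.map fun z => (χ' ^ z.1.val) (f z.2) :=
      Multiset.map_congr rfl fun z _ => (hcoef _ _).symm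
    rw [e1, e2]
    exact h1
  have hQk : ((Q : ℕ) : κ) = 1 := by
    have h3 : ((Q - 1 : ℕ) : κ) = 0 := by
      rw [CharP.cast_eq_zero_iff κ q]
      exact (dvd_pow_self q (by omega)).trans hqQ
    rw [Nat.cast_sub (by omega), Nat.cast_one] at h3
    exact sub_eq_zero.mp h3
  have hχm : orderOf χ = M * q ^ b := by rw [hχ, hm]
  have h3 := congrArg φ h2
  rw [map_mul, map_pow, map_natCast, map_multiset_prod, map_multiset_prod, Multiset.map_map,
    Multiset.map_map] at h3
  have e1 : (s.map (φ ∘ fun z => gaussSum (χ ^ z.1.val) ψ)) =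
      s.map fun z => if M ∣ z.1.val then (-1 : κ) else 1 :=
    Multiset.map_congr rfl fun z _ =>
      red_gauss φ hcard (hQ ▸ hQM) hcop (hQ ▸ hQk) hχm hψ1 _
  have e2 : (s.map (φ ∘ fun z => (χ ^ z.1.val) (f z.2))) = s.map fun _ => (1 : κ) := by
    refine Multiset.map_congr rfl fun z hz => ?_
    show φ ((χ ^ z.1.val) (f z.2)) = 1
    rw [hfa]
    refine red_coef φ hcard (hQ ▸ hMQ) hχm ?_ _
    apply map_ne_zero_of_norm (ℓ := ℓ) f0 (hc z hz)
    have : Ideal.absNorm (Ideal.span {z.2}) ≤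
        (s.map fun z => Ideal.absNorm (Ideal.span {z.2})).sum :=
      Multiset.single_le_sum (fun _ _ => Nat.zero_le _) _
        (Multiset.mem_map_of_mem (fun z : ZMod m × 𝓞 k => Ideal.absNorm (Ideal.span {z.2})) hz)
    omega
  rw [e1, e2, prod_signs, hcardF] at h3
  push_cast at h3
  rw [hQk, one_pow, one_pow, one_mul, Multiset.map_const', Multiset.prod_replicate, one_pow] at h3
  by_contra hodd
  rw [Nat.not_even_iff_odd] at hodd
  rw [hodd.neg_one_pow] at h3
  have h4 : ((2 : ℕ) : κ) = 0 := by push_cast; linear_combination -h3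
  rw [CharP.cast_eq_zero_iff κ q] at h4
  have := (Nat.prime_dvd_prime_iff_eq hq Nat.prime_two).mp h4
  exact hq2 this

end Pool.Agent.N198.NF
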