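import Pool.Agent.N198.NF.Core
import Pool.Agent.N426.NF.HT
import Pool.Agent.N198.NF.Par2

/-!
Tate classes with few entries over number fields with primes of prescribed norm.
-/

set_option linter.unusedSectionVars false

namespace Pool.Agent.N198.NF

open NumberField Finset Pool.Agent.H916R2 Pool.Agent.N992 Pool.Agent.N993 Pool.Agent.H916K
  Pool.Agent.N198.TP

/-- The parities of a Tate class are even. -/
theorem even_of_tate_class2 {k : Type} [Field k] [NumberField k] (hk : ManyPrimes k) {m : ℕ}
    [NeZero m] {s : Multiset (ZMod m × 𝓞 k)} (hH : IsHodge m (s.map Prod.fst)) (hne : s ≠ 0)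
    (hc : ∀ z ∈ s, z.2 ≠ 0) (hT : TateClass k m s) {p : ℕ} (hp : p.Prime) (hpm : p ∣ m)
    (hp4 : p % 4 = 1) : ((s.map Prod.fst).map (pr p m)).sum = 0 := by
  set e := m.factorization p with he
  have hm : p ^ e * (m / p ^ e) = m := Nat.ordProj_mul_ordCompl_eq_self m p
  by_cases hM : 3 ≤ m / p ^ e
  · have h1 := even_of_tate2 hk (m := m) (M := m / p ^ e) (q := p) (b := e)
      (by rw [mul_comm]; exact hm.symm) hM hp hp4
      (Nat.coprime_ordCompl hp (NeZero.ne m)).symm hc hT
    have h2 : (s.countP fun z => (m / p ^ e) ∣ z.1.val) =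
        ((s.map Prod.fst).countP fun a => (m / p ^ e) ∣ a.val) := by
      rw [Multiset.countP_map, ← Multiset.countP_eq_card_filter]
    have h3 : ((s.map Prod.fst).map (fun a : ZMod m => ((a, (1 : ℤ)) : ZMod m × ℤ))).map Prod.fst =
        s.map Prod.fst := by
      rw [Multiset.map_map, Multiset.map_map]
      rfl
    have h4 := countP_conv (pow_pos hp.pos e) hm
      (s := (s.map Prod.fst).map (fun a : ZMod m => ((a, (1 : ℤ)) : ZMod m × ℤ)))
    rw [h3] at h4
    have h5 : (((s.map Prod.fst).map (fun a : ZMod m => ((a, (1 : ℤ)) : ZMod m × ℤ))).countP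
        fun z => (m / p ^ e) ∣ z.1.val) = s.countP fun z => (m / p ^ e) ∣ z.1.val := by
      rw [h2, Multiset.countP_map, ← Multiset.countP_eq_card_filter]
    rw [h5] at h4
    rw [h4] at h1
    unfold pr
    rw [← he, sum_par hH.1]
    exact (ZMod.natCast_eq_zero_iff_even).mpr h1
  · have hms := mutual_of_small hp hp4 hpm (by rw [← he]; omega)
    obtain ⟨l, hl, _, hgen⟩ := Pool.Agent.N993.main m hms
    have h1 := even_of_generated hp hp4 (hgen _ hH (fun h => hne (Multiset.map_eq_zero.mp h)))
    rw [Multiset.map_map] at h1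
    rw [← h1]
    congr 1
    refine Multiset.map_congr rfl fun a _ => ?_
    exact (pr_iota hp rfl a).symm

/-- **Tate classes with few entries over number fields with primes of prescribed norm.** -/
theorem main_nf2 {k : Type} [Field k] [NumberField k] (hk : ManyPrimes k) (r m : ℕ) [NeZero m]
    (hm : Covered r m) (s : Multiset (ZMod m × 𝓞 k)) (hne : s ≠ 0) (heven : Even (Multiset.card s))
    (hcard : Multiset.card s ≤ 2 * r) (h0 : ∀ z ∈ s, z.1 ≠ 0 ∧ z.2 ≠ 0)
    (hsum : (s.map Prod.fst).sum = 0) (hT : TateClass k m s) :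
    ∃ l : ℕ, ∃ _ : NeZero (l * m), Generated (l * m) (ModularCharacter (l * m))
        ((s.map Prod.fst).map (fun a => ((l * a.val : ℕ) : ZMod (l * m)))) := by
  have hmp : 0 < m := NeZero.pos m
  have hm2 : 2 ≤ m := by
    by_contra hlt
    have hm1 : m = 1 := by omega
    subst hm1
    obtain ⟨z, hz⟩ := Multiset.exists_mem_of_ne_zero hne
    exact (h0 z hz).1 (Subsingleton.elim _ _)
  have hH := Pool.Agent.N426.NF.hodge_of_tate hm2 (fun z hz => (h0 z hz).1) heven hsum
    (fun z hz => (h0 z hz).2) hT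
  exact core r m (s.map Prod.fst) (fun h => hne (Multiset.map_eq_zero.mp h))
    (by rw [Multiset.card_map]; exact hcard) hH
    (fun p hp hpm hp4 => even_of_tate_class2 hk hH hne (fun z hz => (h0 z hz).2) hT hp hpm hp4) hm

end Pool.Agent.N198.NF
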