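import Pool.Agent.N198.NF.Def2
import Pool.Agent.N277.NF.CH
import Pool.Agent.N887.NF.GA

/-!
Number fields without imaginary quadratic and cyclic quartic subfields have primes of prescribed norm.
-/

namespace Pool.Agent.N198.NF

open NumberField

theorem manyPrimes {k : Type} [Field k] [NumberField k]
    (h2 : ∀ (x : k) (d : ℚ), x ^ 2 = algebraMap ℚ k d → 0 ≤ d)
    (h4 : ∀ F : IntermediateField ℚ k, Module.finrank ℚ F = 4 → IsGalois ℚ F →
      ¬ IsCyclic (F ≃ₐ[ℚ] F)) : ManyPrimes k := by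
  intro q b R N hq hq4 hR hcop
  have hcop' : R.Coprime (q ^ b) := Nat.Coprime.pow_right b hcop
  obtain ⟨t, ht1, ht2⟩ := Nat.chineseRemainder hcop' (R - 1) 1
  have h1 : ((t + 1 : ℕ) : ZMod R) = 0 := by
    have h := (ZMod.natCast_eq_natCast_iff _ _ _).2 ht1
    rw [Nat.cast_sub (by omega : 1 ≤ R), ZMod.natCast_self, Nat.cast_one] at h
    rw [Nat.cast_add, Nat.cast_one, h]
    ring
  have h3 : ((t : ℕ) : ZMod (q ^ b)) = 1 := by
    have h := (ZMod.natCast_eq_natCast_iff _ _ _).2 ht2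
    rw [Nat.cast_one] at h
    exact h
  have hM : 0 < R * q ^ b := Nat.mul_pos hR (pow_pos hq.pos b)
  obtain ⟨K, i1, i2, f, hf, hN, hc⟩ := Pool.Agent.N277.NF.primes_of_acts hM
    (Pool.Agent.N887.NF.acts_of_subfields h2 h4 hq hq4 hR hcop h1 h3) N
  have hc' := (ZMod.natCast_eq_natCast_iff _ _ _).1 hc
  refine ⟨K, i1, i2, f, hf, hN, ?_, ?_⟩
  · have h5 := hc'.of_dvd (Dvd.intro _ rfl : R ∣ R * q ^ b)
    have h6 := (ZMod.natCast_eq_natCast_iff _ _ _).2 h5
    rw [← ZMod.natCast_eq_zero_iff, Nat.cast_add, Nat.cast_one, h6]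
    rw [Nat.cast_add, Nat.cast_one] at h1
    exact h1
  · have h5 := hc'.of_dvd (Dvd.intro_left _ rfl : q ^ b ∣ R * q ^ b)
    have h6 := (ZMod.natCast_eq_natCast_iff _ _ _).2 h5
    have hcard : 1 ≤ Fintype.card K := Fintype.card_pos
    rw [← ZMod.natCast_eq_zero_iff, Nat.cast_sub hcard, Nat.cast_one, h6, h3, sub_self]

end Pool.Agent.N198.NF
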